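import Mathlib

set_option autoImplicit false

/-!
A transitive group action and a subgroup `K` with as many elements as the point stabilisers: the
orbits of `K` do not have the sizes `2, 5, 1, …, 1`.
-/

open MulAction

namespace Pool.Agent.Q320.TP

variable {G X : Type*} [Group G] [MulAction G X]

/-- `M ≤ K` of index two: `K` normalises `M` -/
theorem le_normalizer {M K : Subgroup G} (hMK : M ≤ K) (h2 : M.relIndex K = 2) :
    K ≤ Subgroup.normalizer (M : Set G) := by
  have h : (M.subgroupOf K).Normal := Subgroup.normal_of_index_eq_two h2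
  exact (Subgroup.normal_subgroupOf_iff_le_normalizer hMK).1 h

/-- if `M ≤ K` has index two and fixes `y` then the orbit of `y` has at most two elements -/
theorem ncard_orbit_le {M K : Subgroup G} (h2 : M.relIndex K = 2) (y : X)
    (hy : ∀ m ∈ M, m • y = y) : (orbit K y).ncard ≤ 2 := by
  rw [← index_stabilizer K]
  have h1 : M.subgroupOf K ≤ stabilizer K y := by
    intro k hk
    rw [Subgroup.mem_subgroupOf] at hk
    rw [mem_stabilizer_iff]
    exact hy k hk
  have h3 := Subgroup.index_dvd_of_le h1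
  have h4 : (M.subgroupOf K).index = 2 := h2
  rw [h4] at h3
  exact Nat.le_of_dvd (by norm_num) h3

theorem no_orbits [Finite G] [Finite X] [IsPretransitive G X] (K : Subgroup G)
    (hc : ∀ x : X, Nat.card (stabilizer G x) = Nat.card K) (x0 z0 : X)
    (h2 : (orbit K x0).ncard = 2) (h5 : (orbit K z0).ncard = 5)
    (h : ∀ x : X, x ∈ orbit K x0 ∨ x ∈ orbit K z0 ∨ ∀ k ∈ K, k • x = x) : False := by
  set A : Subgroup G := stabilizer G x0 with hA
  set M : Subgroup G := A ⊓ K with hM
  set L : Subgroup G := K ⊔ A with hL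
  have hKL : K ≤ L := le_sup_left
  have hAL : A ≤ L := le_sup_right
  have hMA : M ≤ A := inf_le_left
  have hMK : M ≤ K := inf_le_right
  -- the indices
  have hrK : M.relIndex K = 2 := by
    have h1 : (stabilizer K x0).index = 2 := by rw [index_stabilizer, h2]
    have h3 : stabilizer K x0 = M.subgroupOf K := by
      ext k
      rw [mem_stabilizer_iff, Subgroup.mem_subgroupOf, hM, Subgroup.mem_inf, hA,
        mem_stabilizer_iff]
      constructor
      · intro hk
        exact ⟨hk, k.2⟩
      · intro hk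
        exact hk.1
    rw [h3] at h1
    exact h1
  have hcM : ∀ N : Subgroup G, M ≤ N → M.relIndex N * Nat.card M = Nat.card N := by
    intro N hN
    have h1 := Subgroup.index_mul_card (M.subgroupOf N)
    have h3 : Nat.card (M.subgroupOf N) = Nat.card M :=
      Nat.card_congr (Subgroup.subgroupOfEquivOfLe hN).toEquiv
    rw [h3] at h1
    exact h1
  have hrA : M.relIndex A = 2 := by
    have h1 := hcM K hMK
    have h3 := hcM A hMA
    rw [hrK] at h1
    have h4 : Nat.card A = Nat.card K := hc x0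
    rw [h4, ← h1] at h3
    exact Nat.eq_of_mul_eq_mul_right Nat.card_pos h3
  have hLn : L ≤ Subgroup.normalizer (M : Set G) :=
    sup_le (le_normalizer hMK hrK) (le_normalizer hMA hrA)
  -- `M` fixes the points of `L x0`
  have hfix : ∀ l ∈ L, ∀ m ∈ M, m • l • x0 = l • x0 := by
    intro l hl m hm
    have h1 := Subgroup.mem_normalizer_iff.1 (Subgroup.inv_mem _ (hLn hl)) m
    have h3 : l⁻¹ * m * l⁻¹⁻¹ ∈ M := h1.1 hm
    have h4 : (l⁻¹ * m * l⁻¹⁻¹) • x0 = x0 := hMA h3
    rw [inv_inv, mul_smul, mul_smul, inv_smul_eq_iff] at h4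
    exact h4
  have hK2 : ∀ l ∈ L, (orbit K (l • x0)).ncard ≤ 2 := fun l hl =>
    ncard_orbit_le hrK _ (hfix l hl)
  have hA2 : ∀ l ∈ L, (orbit A (l • x0)).ncard ≤ 2 := fun l hl =>
    ncard_orbit_le hrA _ (hfix l hl)
  have hz : ∀ l ∈ L, l • x0 ∉ orbit K z0 := by
    intro l hl hmem
    have h1 := hK2 l hl
    rw [orbit_eq_iff.2 hmem, h5] at h1
    omega
  -- the second point of the orbit of `x0`
  obtain ⟨x1, hx1, hx10⟩ : ∃ x1 ∈ orbit K x0, x1 ≠ x0 :=
    Set.exists_ne_of_one_lt_ncard (by omega) x0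
  obtain ⟨⟨k1, hk1⟩, hk1x⟩ := hx1
  have hk1x : k1 • x0 = x1 := hk1x
  -- the set `S`
  set S : Set X := orbit K x0 ∪ orbit A x1 with hS
  have hScard : S.ncard ≤ 3 := by
    have h1 : (orbit A x1).ncard ≤ 2 := by
      have := hA2 k1 (hKL hk1)
      rwa [hk1x] at this
    have h3 : S = orbit K x0 ∪ (orbit A x1 \ {x1}) := by
      ext w
      simp only [hS, Set.mem_union, Set.mem_sdiff, Set.mem_singleton_iff]
      constructor
      · rintro (hw | hw)
        · exact Or.inl hw
        · by_cases hw1 : w = x1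
          · left
            rw [hw1, ← hk1x]
            exact ⟨⟨k1, hk1⟩, rfl⟩
          · exact Or.inr ⟨hw, hw1⟩
      · rintro (hw | hw)
        · exact Or.inl hw
        · exact Or.inr hw.1
    have h4 : (orbit A x1 \ {x1}).ncard + 1 = (orbit A x1).ncard :=
      Set.ncard_sdiff_singleton_add_one (mem_orbit_self x1)
    have h6 := Set.ncard_union_le (orbit K x0) (orbit A x1 \ {x1})
    rw [← h3, h2] at h6
    omega
  have hSorb : ∀ w ∈ orbit A x1, ∃ l ∈ L, w = l • x0 := by
    rintro w ⟨⟨a, ha⟩, haw⟩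
    refine ⟨a * k1, L.mul_mem (hAL ha) (hKL hk1), ?_⟩
    rw [mul_smul, hk1x]
    exact haw.symm
  have hSK : ∀ k ∈ K, ∀ w ∈ S, k • w ∈ S := by
    rintro k hk w (hw | hw)
    · left
      obtain ⟨⟨k', hk'⟩, hkw⟩ := hw
      have hkw : k' • x0 = w := hkw
      rw [← hkw, ← mul_smul]
      exact ⟨⟨k * k', K.mul_mem hk hk'⟩, rfl⟩
    · obtain ⟨l, hl, hwl⟩ := hSorb w hw
      rcases h w with h1 | h1 | h1
      · left
        obtain ⟨⟨k', hk'⟩, hkw⟩ := h1
        have hkw : k' • x0 = w := hkw
        rw [← hkw, ← mul_smul]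
        exact ⟨⟨k * k', K.mul_mem hk hk'⟩, rfl⟩
      · exact absurd (hwl ▸ h1) (hz l hl)
      · right
        rw [h1 k hk]
        exact hw
  have hSA : ∀ a ∈ A, ∀ w ∈ S, a • w ∈ S := by
    have hA1 : ∀ a ∈ A, ∀ w ∈ orbit A x1, a • w ∈ S := by
      rintro a ha w ⟨⟨a', ha'⟩, haw⟩
      right
      have haw : a' • x1 = w := haw
      rw [← haw, ← mul_smul]
      exact ⟨⟨a * a', A.mul_mem ha ha'⟩, rfl⟩
    rintro a ha w (hw | hw)
    · -- the orbit `K x0` is `{x0, x1}`
      have h1 : orbit K x0 = {x0, x1} := by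
        have hsub : ({x0, x1} : Set X) ⊆ orbit K x0 := by
          rintro y (rfl | rfl)
          · exact mem_orbit_self _
          · exact ⟨⟨k1, hk1⟩, hk1x⟩
        refine (Set.eq_of_subset_of_ncard_le hsub ?_).symm
        rw [h2, Set.ncard_pair (Ne.symm hx10)]
      rw [h1] at hw
      rcases hw with rfl | rfl
      · left
        have h3 : a • w = w := ha
        rw [h3]
        exact mem_orbit_self _
      · exact hA1 a ha _ (mem_orbit_self _)
    · exact hA1 a ha w hw
  have hSL : ∀ l ∈ L, ∀ w ∈ S, l • w ∈ S := by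
    intro l hl
    have hl' : l ∈ Subgroup.closure ((K : Set G) ∪ A) := by
      rw [Subgroup.closure_union, Subgroup.closure_eq, Subgroup.closure_eq]
      exact hl
    induction hl' using Subgroup.closure_induction with
    | mem x hx =>
      rcases hx with hx | hx
      · exact hSK x hx
      · exact hSA x hx
    | one =>
      intro w hw
      rwa [one_smul]
    | mul x y hx hy ihx ihy =>
      have hxL : x ∈ L := by
        rw [Subgroup.closure_union, Subgroup.closure_eq, Subgroup.closure_eq] at hx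
        exact hx
      have hyL : y ∈ L := by
        rw [Subgroup.closure_union, Subgroup.closure_eq, Subgroup.closure_eq] at hy
        exact hy
      intro w hw
      rw [mul_smul]
      exact ihx hxL _ (ihy hyL w hw)
    | inv x hx ih =>
      have hxL : x ∈ L := by
        rw [Subgroup.closure_union, Subgroup.closure_eq, Subgroup.closure_eq] at hx
        exact hx
      intro w hw
      have ih' := ih hxL
      have hfin : S.Finite := Set.toFinite S
      have hinj : Set.InjOn (fun w => x • w) S := fun a _ b _ hab => by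
        simpa using hab
      have hmaps : Set.MapsTo (fun w => x • w) S S := fun a ha => ih' a ha
      have himg : (fun w => x • w) '' S = S := by
        refine Set.eq_of_subset_of_ncard_le (Set.image_subset_iff.2 hmaps) ?_
        rw [hinj.ncard_image]
      rw [← himg] at hw
      obtain ⟨v, hv, hvw⟩ := hw
      have hvw : x • v = w := hvw
      rw [← hvw, inv_smul_smul]
      exact hv
  -- the block of `z0`
  obtain ⟨g, hg⟩ : ∃ g : G, g • x0 = z0 := exists_smul_eq G x0 z0
  have hgL : g ∉ L := fun hgl => hz g hgl (hg ▸ mem_orbit_self _)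
  have hst : ∀ u v : G, u • x0 = v • x0 → v⁻¹ * u ∈ L := by
    intro u v huv
    apply hAL
    rw [hA, mem_stabilizer_iff, mul_smul, huv, inv_smul_smul]
  set C : Subgroup K := L.comap ((MulAut.conj g⁻¹).toMonoidHom.comp K.subtype) with hC
  have hCm : ∀ k : K, k ∈ C ↔ g⁻¹ * (k : G) * g ∈ L := by
    intro k
    rw [hC, Subgroup.mem_comap]
    simp [MulAut.conj_apply]
  have hsC : stabilizer K z0 ≤ C := by
    intro k hk
    rw [hCm]
    have h1 : (k : G) • z0 = z0 := hk
    rw [← hg, ← mul_smul] at h1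
    have h3 := hst _ _ h1
    rw [mul_assoc]
    exact h3
  have hi : (stabilizer K z0).index = 5 := by rw [index_stabilizer, h5]
  have hd : C.index ∣ 5 := hi ▸ Subgroup.index_dvd_of_le hsC
  have hC1 : C.index ≠ 1 := by
    intro h1
    rw [Subgroup.index_eq_one] at h1
    have h3 : orbit K z0 ⊆ (fun w => g • w) '' S := by
      rintro w ⟨k, hkw⟩
      have hkw : (k : G) • z0 = w := hkw
      have hk : k ∈ C := by rw [h1]; trivial
      rw [hCm] at hk
      refine ⟨(g⁻¹ * (k : G) * g) • x0, hSL _ hk _ (Or.inl (mem_orbit_self _)), ?_⟩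
      change g • (g⁻¹ * (k : G) * g) • x0 = w
      rw [← hkw, ← hg, ← mul_smul, ← mul_smul]
      congr 1
      group
    have h4 := Set.ncard_le_ncard h3 (Set.toFinite _)
    have h6 := Set.ncard_image_le (f := fun w => g • w) (Set.toFinite S)
    omega
  have hC5 : C.index = 5 := by
    rcases (Nat.dvd_prime (by norm_num)).1 hd with h1 | h1
    · exact absurd h1 hC1
    · exact h1
  have hCs : C ≤ stabilizer K z0 := by
    have h1 := Subgroup.relIndex_mul_index hsC
    rw [hi, hC5] at h1
    have h3 : (stabilizer K z0).relIndex C = 1 := by omega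
    exact Subgroup.relIndex_eq_one.1 h3
  have hg1 : ∀ w, w = g • k1 • x0 → w ≠ z0 := by
    intro w hw hwz
    rw [hw, ← hg] at hwz
    have h1 : k1 • x0 = x0 := by simpa using hwz
    rw [hk1x] at h1
    exact hx10 h1
  rcases h (g • k1 • x0) with h1 | h1 | h1
  · obtain ⟨⟨k, hk⟩, hkw⟩ := h1
    have hkw : k • x0 = g • k1 • x0 := hkw
    rw [← mul_smul] at hkw
    have h3 := hst _ _ hkw.symm
    apply hgL
    have h4 : g = k * (k⁻¹ * (g * k1)) * k1⁻¹ := by group
    rw [h4]
    exact L.mul_mem (L.mul_mem (hKL hk) h3) (L.inv_mem (hKL hk1))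
  · obtain ⟨k, hkw⟩ := h1
    have hkw : (k : G) • z0 = g • k1 • x0 := hkw
    rw [← hg, ← mul_smul, ← mul_smul] at hkw
    have h3 := hst _ _ hkw
    have h4 : k ∈ C := by
      rw [hCm]
      have h6 : g⁻¹ * (k : G) * g = k1 * ((g * k1)⁻¹ * ((k : G) * g)) := by group
      rw [h6]
      exact L.mul_mem (hKL hk1) h3
    have h7 : (k : G) • z0 = z0 := hCs h4
    refine hg1 _ rfl ?_
    rw [← mul_smul, ← hkw, mul_smul, hg, h7]
  · apply hC1
    rw [Subgroup.index_eq_one]
    rw [eq_top_iff]
    intro k _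
    rw [hCm]
    have h3 := h1 k k.2
    rw [← mul_smul, ← mul_smul, ← mul_smul] at h3
    have h4 := hst _ _ h3
    have h6 : g⁻¹ * (k : G) * g = k1 * ((g * k1)⁻¹ * ((k : G) * g * k1)) * k1⁻¹ := by group
    rw [h6]
    exact L.mul_mem (L.mul_mem (hKL hk1) h4) (L.inv_mem (hKL hk1))

end Pool.Agent.Q320.TP
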