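import Mathlib

set_option autoImplicit false

/-!
The number of common transversals of two subgroups of the same order.
-/

open MulAction

namespace Pool.Agent.Q320.TP

section generic

variable {X Y Z : Type*}

/-- common sections of two maps are bijections with a choice of an element -/
theorem card_sections [Finite Z] [Fintype X] [Finite Y] [Fintype (X ≃ Y)] (a : Z → X) (b : Z → Y) :
    Nat.card {f : X → Z // (∀ x, a (f x) = x) ∧ Function.Bijective fun x => b (f x)}
      = ∑ φ : X ≃ Y, ∏ x : X, Nat.card {z : Z // a z = x ∧ b z = φ x} := by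
  have h : Function.Bijective
      (fun p : (Σ φ : X ≃ Y, ∀ x : X, {z : Z // a z = x ∧ b z = φ x}) =>
        (⟨fun x => (p.2 x).1, fun x => (p.2 x).2.1, by
          have h1 : (fun x => b (p.2 x).1) = p.1 := funext fun x => (p.2 x).2.2
          rw [h1]
          exact p.1.bijective⟩ :
          {f : X → Z // (∀ x, a (f x) = x) ∧ Function.Bijective fun x => b (f x)})) := by
    constructor
    · rintro ⟨φ, u⟩ ⟨ψ, v⟩ huv
      have h1 : ∀ x, (u x).1 = (v x).1 := fun x => congrFun (congrArg Subtype.val huv) x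
      have h2 : φ = ψ := Equiv.ext fun x => by
        rw [← (u x).2.2, ← (v x).2.2, h1 x]
      subst h2
      have h3 : u = v := funext fun x => Subtype.ext (h1 x)
      rw [h3]
    · rintro ⟨f, h1, h2⟩
      exact ⟨⟨Equiv.ofBijective _ h2, fun x => ⟨f x, h1 x, rfl⟩⟩, rfl⟩
  rw [← Nat.card_congr (Equiv.ofBijective _ h), Nat.card_sigma]
  exact Finset.sum_congr rfl fun φ _ => Nat.card_pi

/-- the number of the bijections compatible with two maps with fibres of the same size -/
theorem card_compatible {W : Type*} [Fintype X] [Finite Y] [Fintype W] (p : X → W) (q : Y → W)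
    (h : ∀ w, Nat.card {y // q y = w} = Nat.card {x // p x = w}) :
    Nat.card {φ : X ≃ Y // ∀ x, q (φ x) = p x} = ∏ w : W, (Nat.card {x // p x = w}).factorial := by
  classical
  have h1 : ∀ w, Nonempty ({x // p x = w} ≃ {y // q y = w}) := fun w =>
    Finite.card_eq.1 (h w).symm
  set e := fun w => (h1 w).some with he
  set E : X ≃ Y := Equiv.ofFiberEquiv e with hE
  have hEq : ∀ x, q (E x) = p x := fun x => Equiv.ofFiberEquiv_map e x
  have hEs : ∀ y, p (E.symm y) = q y := fun y => by
    rw [← hEq, Equiv.apply_symm_apply]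
  have h2 : {φ : X ≃ Y // ∀ x, q (φ x) = p x} ≃ {g : Equiv.Perm X // p ∘ g = p} :=
    { toFun := fun φ => ⟨φ.1.trans E.symm, funext fun x => by
        change p (E.symm (φ.1 x)) = p x
        rw [hEs, φ.2 x]⟩
      invFun := fun g => ⟨g.1.trans E, fun x => by
        change q (E (g.1 x)) = p x
        rw [hEq]
        exact congrFun g.2 x⟩
      left_inv := fun φ => Subtype.ext (Equiv.ext fun x => by simp)
      right_inv := fun g => Subtype.ext (Equiv.ext fun x => by simp) }
  rw [Nat.card_congr h2, Nat.card_eq_fintype_card, DomMulAct.stabilizer_card]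
  exact Finset.prod_congr rfl fun w _ => by rw [Nat.card_eq_fintype_card]

end generic

variable {G : Type*} [Group G]

/-- the right coset of an element -/
def rc (K : Subgroup G) (g : G) : Quotient (QuotientGroup.rightRel K) := Quotient.mk _ g

theorem rc_eq {K : Subgroup G} {a b : G} : rc K a = rc K b ↔ b * a⁻¹ ∈ K := by
  unfold rc
  rw [Quotient.eq, QuotientGroup.rightRel_apply]

/-- the orbit of `K` belonging to a right coset of `K` -/
def qm (H K : Subgroup G) :
    Quotient (QuotientGroup.rightRel K) → orbitRel.Quotient K (G ⧸ H) :=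
  Quotient.lift (fun g => (Quotient.mk _ (g : G ⧸ H) : orbitRel.Quotient K (G ⧸ H))) (by
    intro a b hab
    have h : b * a⁻¹ ∈ K := QuotientGroup.rightRel_apply.1 hab
    refine Quotient.sound ?_
    change (a : G ⧸ H) ∈ orbit K (b : G ⧸ H)
    refine ⟨⟨b * a⁻¹, h⟩⁻¹, ?_⟩
    change ((b * a⁻¹)⁻¹ : G) • (b : G ⧸ H) = a
    rw [MulAction.Quotient.smul_coe]
    congr 1
    simp)

/-- the orbit of `K` of a left coset of `H` -/
def pm (H K : Subgroup G) (x : G ⧸ H) : orbitRel.Quotient K (G ⧸ H) := Quotient.mk _ x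

theorem pm_eq {H K : Subgroup G} {x y : G ⧸ H} : pm H K x = pm H K y ↔ x ∈ orbit K y := by
  unfold pm
  rw [Quotient.eq]
  rfl

theorem qm_rc (H K : Subgroup G) (g : G) : qm H K (rc K g) = pm H K (g : G ⧸ H) := rfl

theorem exists_of_eq {H K : Subgroup G} {x : G ⧸ H} {y : Quotient (QuotientGroup.rightRel K)}
    (h : qm H K y = pm H K x) : ∃ g : G, (g : G ⧸ H) = x ∧ rc K g = y := by
  obtain ⟨g, rfl⟩ := Quotient.exists_rep y
  have h1 : pm H K (g : G ⧸ H) = pm H K x := h
  rw [eq_comm, pm_eq] at h1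
  obtain ⟨⟨k, hk⟩, hkx⟩ := h1
  have hkx : k • (g : G ⧸ H) = x := hkx
  refine ⟨k * g, ?_, ?_⟩
  · rw [← hkx, MulAction.Quotient.smul_coe]
    rfl
  · change rc K (k * g) = rc K g
    rw [rc_eq]
    simpa using hk

theorem card_inter_of_eq {H K : Subgroup G} {x : G ⧸ H}
    {y : Quotient (QuotientGroup.rightRel K)} (h : qm H K y = pm H K x) :
    Nat.card {g : G // (g : G ⧸ H) = x ∧ rc K g = y} = Nat.card (stabilizer K x) := by
  obtain ⟨g0, h1, h2⟩ := exists_of_eq h
  symm
  refine Nat.card_congr (Equiv.ofBijective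
    (fun k : stabilizer K x => (⟨(k.1 : G) * g0, ?_, ?_⟩ : {g : G // (g : G ⧸ H) = x ∧ rc K g = y}))
    ⟨?_, ?_⟩)
  · have h3 : (k.1 : G) • x = x := k.2
    have h4 : (k.1 : G) • (g0 : G ⧸ H) = x := by rw [h1]; exact h3
    rw [MulAction.Quotient.smul_coe] at h4
    exact h4
  · rw [← h2, rc_eq]
    have h4 : g0 * ((k.1 : G) * g0)⁻¹ = (k.1 : G)⁻¹ := by group
    rw [h4]
    exact K.inv_mem k.1.2
  · intro k l hkl
    have h3 : (k.1 : G) * g0 = (l.1 : G) * g0 := congrArg Subtype.val hkl
    exact Subtype.ext (Subtype.ext (mul_right_cancel h3))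
  · rintro ⟨g, hg1, hg2⟩
    have h3 : g * g0⁻¹ ∈ K := by
      rw [← rc_eq, h2, hg2]
    have h4 : (⟨g * g0⁻¹, h3⟩ : K) ∈ stabilizer K x := by
      rw [mem_stabilizer_iff]
      change (g * g0⁻¹) • x = x
      rw [← h1, MulAction.Quotient.smul_coe, h1, ← hg1]
      congr 1
      simp
    refine ⟨⟨⟨g * g0⁻¹, h3⟩, h4⟩, Subtype.ext ?_⟩
    change g * g0⁻¹ * g0 = g
    group

theorem card_inter_of_ne {H K : Subgroup G} {x : G ⧸ H}
    {y : Quotient (QuotientGroup.rightRel K)} (h : qm H K y ≠ pm H K x) :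
    Nat.card {g : G // (g : G ⧸ H) = x ∧ rc K g = y} = 0 := by
  have : IsEmpty {g : G // (g : G ⧸ H) = x ∧ rc K g = y} := by
    refine ⟨fun g => h ?_⟩
    rw [← g.2.2, qm_rc, g.2.1]
  exact Nat.card_of_isEmpty

theorem card_coset (H : Subgroup G) (x : G ⧸ H) : Nat.card {g : G // (g : G ⧸ H) = x} =
    Nat.card H := by
  obtain ⟨g0, rfl⟩ := QuotientGroup.mk_surjective x
  symm
  refine Nat.card_congr (Equiv.ofBijective
    (fun k : H => (⟨g0 * k, ?_⟩ : {g : G // (g : G ⧸ H) = g0})) ⟨?_, ?_⟩)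
  · rw [eq_comm, QuotientGroup.eq]
    simp
  · intro k l hkl
    have h3 : g0 * (k : G) = g0 * (l : G) := congrArg Subtype.val hkl
    exact Subtype.ext (mul_left_cancel h3)
  · rintro ⟨g, hg⟩
    have h1 : g0⁻¹ * g ∈ H := QuotientGroup.eq.1 hg.symm
    exact ⟨⟨g0⁻¹ * g, h1⟩, Subtype.ext (by simp)⟩

section finite

variable [Finite G]

theorem card_fibre_q (H K : Subgroup G) (hHK : Nat.card H = Nat.card K)
    (w : orbitRel.Quotient K (G ⧸ H)) :
    Nat.card {y // qm H K y = w} = Nat.card {x // pm H K x = w} := by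
  classical
  obtain ⟨x0, rfl⟩ : ∃ x0, pm H K x0 = w := Quotient.exists_rep w
  have hY := Fintype.ofFinite (Quotient (QuotientGroup.rightRel K))
  have h1 : Nat.card {x // pm H K x = pm H K x0} = Nat.card (orbit K x0) := by
    refine Nat.card_congr (Equiv.subtypeEquivRight fun x => ?_)
    exact pm_eq
  have h2 : Nat.card (orbit K x0) * Nat.card (stabilizer K x0) = Nat.card K := by
    rw [← Nat.card_prod]
    exact Nat.card_congr (orbitProdStabilizerEquivGroup K x0)
  have h3 : Nat.card {g : G // (g : G ⧸ H) = x0}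
      = ∑ y, Nat.card {g : G // (g : G ⧸ H) = x0 ∧ rc K g = y} := by
    have e : {g : G // (g : G ⧸ H) = x0} ≃
        Σ y, {g : G // (g : G ⧸ H) = x0 ∧ rc K g = y} :=
      { toFun := fun g => ⟨rc K g.1, g.1, g.2, rfl⟩
        invFun := fun p => ⟨p.2.1, p.2.2.1⟩
        left_inv := fun g => rfl
        right_inv := by
          rintro ⟨y, g, h1, rfl⟩
          rfl }
    rw [Nat.card_congr e, Nat.card_sigma]
  have h4 : ∑ y, Nat.card {g : G // (g : G ⧸ H) = x0 ∧ rc K g = y}
      = Nat.card {y // qm H K y = pm H K x0} * Nat.card (stabilizer K x0) := by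
    have h5 : ∀ y, Nat.card {g : G // (g : G ⧸ H) = x0 ∧ rc K g = y}
        = if qm H K y = pm H K x0 then Nat.card (stabilizer K x0) else 0 := by
      intro y
      split_ifs with h
      · exact card_inter_of_eq h
      · exact card_inter_of_ne h
    rw [Finset.sum_congr rfl fun y _ => h5 y, Finset.sum_ite, Finset.sum_const,
      Finset.sum_const_zero, add_zero, smul_eq_mul, Nat.card_eq_fintype_card
      (α := {y // qm H K y = pm H K x0}), Fintype.card_subtype]
  rw [card_coset, h4, hHK, ← h2] at h3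
  rw [h1]
  exact (Nat.eq_of_mul_eq_mul_right Nat.card_pos h3).symm


/-- **The number of the common sections.** -/
theorem card_sec (H K : Subgroup G) (hHK : Nat.card H = Nat.card K) [Fintype (G ⧸ H)]
    [Fintype (orbitRel.Quotient K (G ⧸ H))] :
    Nat.card {f : G ⧸ H → G // (∀ x, (f x : G ⧸ H) = x) ∧ Function.Bijective fun x => rc K (f x)}
      = (∏ w : orbitRel.Quotient K (G ⧸ H), (Nat.card {x // pm H K x = w}).factorial) *
        ∏ x : G ⧸ H, Nat.card (stabilizer K x) := by
  classical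
  have hY := Fintype.ofFinite (Quotient (QuotientGroup.rightRel K))
  have hE := Fintype.ofFinite ((G ⧸ H) ≃ Quotient (QuotientGroup.rightRel K))
  rw [card_sections (fun g : G => (g : G ⧸ H)) (rc K)]
  rw [← card_compatible (pm H K) (qm H K) (card_fibre_q H K hHK)]
  rw [Nat.card_eq_fintype_card, Fintype.card_subtype, Finset.card_filter, Finset.sum_mul]
  refine Finset.sum_congr rfl fun φ _ => ?_
  split_ifs with h
  · rw [one_mul]
    exact Finset.prod_congr rfl fun x _ => card_inter_of_eq (h x)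
  · rw [zero_mul]
    push Not at h
    obtain ⟨x, hx⟩ := h
    exact Finset.prod_eq_zero (Finset.mem_univ x) (card_inter_of_ne hx)

/-- the value of the normalised number -/
theorem sec_value (H K : Subgroup G) (hHK : Nat.card H = Nat.card K) [Fintype (G ⧸ H)]
    [Fintype (orbitRel.Quotient K (G ⧸ H))] :
    (Nat.card {f : G ⧸ H → G //
        (∀ x, (f x : G ⧸ H) = x) ∧ Function.Bijective fun x => rc K (f x)} : ℚ)
        / (Nat.card H : ℚ) ^ H.index
      = ∏ w : orbitRel.Quotient K (G ⧸ H), ((Nat.card {x // pm H K x = w}).factorial : ℚ) /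
        (Nat.card {x // pm H K x = w} : ℚ) ^ (Nat.card {x // pm H K x = w}) := by
  classical
  rw [card_sec H K hHK, hHK]
  have h1 : ((Nat.card K : ℕ) : ℚ) ^ H.index = ∏ x : G ⧸ H, ((Nat.card K : ℕ) : ℚ) := by
    rw [Finset.prod_const, Finset.card_univ, ← Nat.card_eq_fintype_card]
    rfl
  have h2 : ∀ x : G ⧸ H, ((Nat.card K : ℕ) : ℚ)
      = (Nat.card (orbit K x) : ℚ) * (Nat.card (stabilizer K x) : ℚ) := by
    intro x
    rw [← Nat.cast_mul, ← Nat.card_prod]
    exact congrArg _ (Nat.card_congr (orbitProdStabilizerEquivGroup K x)).symm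
  have h3 : ∏ x : G ⧸ H, ((Nat.card (stabilizer K x) : ℕ) : ℚ) ≠ 0 := by
    rw [Finset.prod_ne_zero_iff]
    intro x _
    exact_mod_cast Nat.card_pos.ne'
  have h4 : ∏ x : G ⧸ H, ((Nat.card (orbit K x) : ℕ) : ℚ)
      = ∏ w : orbitRel.Quotient K (G ⧸ H),
        (Nat.card {x // pm H K x = w} : ℚ) ^ (Nat.card {x // pm H K x = w}) := by
    rw [← Finset.prod_fiberwise (Finset.univ : Finset (G ⧸ H)) (pm H K)]
    refine Finset.prod_congr rfl fun w _ => ?_
    have h5 : ∀ x ∈ Finset.univ.filter (fun x => pm H K x = w),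
        ((Nat.card (orbit K x) : ℕ) : ℚ) = (Nat.card {x // pm H K x = w} : ℚ) := by
      intro x hx
      rw [Finset.mem_filter] at hx
      obtain ⟨-, rfl⟩ := hx
      congr 1
      exact Nat.card_congr (Equiv.subtypeEquivRight fun y => pm_eq.symm)
    rw [Finset.prod_congr rfl h5, Finset.prod_const]
    congr 1
    rw [Nat.card_eq_fintype_card, Fintype.card_subtype]
  rw [h1, Finset.prod_congr rfl fun x _ => h2 x, Finset.prod_mul_distrib, h4]
  push_cast
  rw [Finset.prod_div_distrib, mul_div_mul_right _ _ h3]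

end finite

end Pool.Agent.Q320.TP
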