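import Pool.Agent.Q320.TP.Comb
import Pool.Agent.Q320.TP.Count

set_option autoImplicit false

/-!
The common transversal probability is never `12 / 625`; the permanents of the averaging matrices.
-/

open MulAction

namespace Pool.Agent.Q320.TP

/-- `j! / j ^ j` -/
def ff (j : ℕ) : ℚ := (j.factorial : ℚ) / (j : ℚ) ^ j

theorem ff_pos (j : ℕ) (hj : 1 ≤ j) : 0 < ff j := by
  unfold ff
  have h1 : (0 : ℚ) < j := by exact_mod_cast hj
  positivity

theorem ff_succ_le (j : ℕ) (hj : 1 ≤ j) : ff (j + 1) ≤ ff j := by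
  unfold ff
  have h1 : (0 : ℚ) < j := by exact_mod_cast hj
  have h2 : ((j + 1).factorial : ℚ) / ((j + 1 : ℕ) : ℚ) ^ (j + 1)
      = (j.factorial : ℚ) / ((j + 1 : ℕ) : ℚ) ^ j := by
    rw [Nat.factorial_succ, pow_succ]
    push_cast
    have h3 : (j : ℚ) + 1 ≠ 0 := by positivity
    field_simp
  rw [h2]
  have h4 : (j : ℚ) ≤ ((j + 1 : ℕ) : ℚ) := by push_cast; linarith
  gcongr

theorem ff_anti {i j : ℕ} (hi : 1 ≤ i) (hij : i ≤ j) : ff j ≤ ff i := by
  induction j, hij using Nat.le_induction with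
  | base => exact le_rfl
  | succ j hj ih => exact (ff_succ_le j (hi.trans hj)).trans ih

theorem ff_one : ff 1 = 1 := by norm_num [ff]
theorem ff_two : ff 2 = 1 / 2 := by norm_num [ff]
theorem ff_three : ff 3 = 2 / 9 := by norm_num [ff, Nat.factorial]
theorem ff_four : ff 4 = 3 / 32 := by norm_num [ff, Nat.factorial]
theorem ff_five : ff 5 = 24 / 625 := by norm_num [ff, Nat.factorial]
theorem ff_six : ff 6 = 5 / 324 := by norm_num [ff, Nat.factorial]

theorem ff_le_one {j : ℕ} (hj : 1 ≤ j) : ff j ≤ 1 := ff_one ▸ ff_anti le_rfl hj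

theorem arith {W : Type*} [Fintype W] (c : W → ℕ) (hc : ∀ w, 1 ≤ c w)
    (h : ∏ w, ff (c w) = 12 / 625) :
    ∃ w2 w5 : W, c w2 = 2 ∧ c w5 = 5 ∧ ∀ w, w = w2 ∨ w = w5 ∨ c w = 1 := by
  classical
  have h5 : ∀ w, c w ≤ 5 := by
    intro w
    by_contra hw
    push Not at hw
    have h1 : ∏ w, ff (c w) ≤ ff (c w) := by
      rw [← Finset.mul_prod_erase Finset.univ _ (Finset.mem_univ w)]
      refine mul_le_of_le_one_right (ff_pos _ (hc w)).le ?_
      exact Finset.prod_le_one (fun i _ => (ff_pos _ (hc i)).le) fun i _ => ff_le_one (hc i)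
    have h2 : ff (c w) ≤ ff 6 := ff_anti (by norm_num) hw
    rw [h] at h1
    rw [ff_six] at h2
    norm_num at h1 h2
    linarith
  have hmap : ∀ w ∈ (Finset.univ : Finset W), c w ∈ Finset.Icc 1 5 := fun w _ =>
    Finset.mem_Icc.2 ⟨hc w, h5 w⟩
  rw [← Finset.prod_fiberwise_of_maps_to hmap] at h
  have h6 : ∀ j ∈ Finset.Icc 1 5, ∏ w ∈ Finset.univ.filter (fun w => c w = j), ff (c w)
      = ff j ^ (Finset.univ.filter (fun w => c w = j)).card := by
    intro j _
    rw [Finset.prod_congr rfl (fun w hw => by rw [(Finset.mem_filter.1 hw).2]),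
      Finset.prod_const]
  rw [Finset.prod_congr rfl h6] at h
  set n : ℕ → ℕ := fun j => (Finset.univ.filter (fun w => c w = j)).card with hn
  have h7 : (Finset.Icc 1 5 : Finset ℕ) = {1, 2, 3, 4, 5} := by decide
  rw [h7] at h
  rw [Finset.prod_insert (by decide), Finset.prod_insert (by decide),
    Finset.prod_insert (by decide), Finset.prod_insert (by decide), Finset.prod_singleton,
    ff_one, ff_two, ff_three, ff_four, ff_five, one_pow, one_mul] at h
  change (1 / 2 : ℚ) ^ n 2 * ((2 / 9) ^ n 3 * ((3 / 32) ^ n 4 * (24 / 625) ^ n 5)) = 12 / 625 at h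
  have p2 : (1 / 2 : ℚ) ^ n 2 ≤ 1 := pow_le_one₀ (by norm_num) (by norm_num)
  have p3 : (2 / 9 : ℚ) ^ n 3 ≤ 1 := pow_le_one₀ (by norm_num) (by norm_num)
  have p4 : (3 / 32 : ℚ) ^ n 4 ≤ 1 := pow_le_one₀ (by norm_num) (by norm_num)
  have p5 : (24 / 625 : ℚ) ^ n 5 ≤ 1 := pow_le_one₀ (by norm_num) (by norm_num)
  have q2 : (0 : ℚ) < (1 / 2 : ℚ) ^ n 2 := by positivity
  have q3 : (0 : ℚ) < (2 / 9 : ℚ) ^ n 3 := by positivity
  have q4 : (0 : ℚ) < (3 / 32 : ℚ) ^ n 4 := by positivity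
  have q5 : (0 : ℚ) < (24 / 625 : ℚ) ^ n 5 := by positivity
  have r45 : (3 / 32 : ℚ) ^ n 4 * (24 / 625) ^ n 5 ≤ 1 := mul_le_one₀ p4 q5.le p5
  have r345 : (2 / 9 : ℚ) ^ n 3 * ((3 / 32) ^ n 4 * (24 / 625) ^ n 5) ≤ 1 :=
    mul_le_one₀ p3 (by positivity) r45
  have s2 : (12 / 625 : ℚ) ≤ (1 / 2) ^ n 2 := by
    rw [← h]
    exact mul_le_of_le_one_right q2.le r345
  have s345 : (12 / 625 : ℚ) ≤ (2 / 9 : ℚ) ^ n 3 * ((3 / 32) ^ n 4 * (24 / 625) ^ n 5) := by
    rw [← h]
    exact mul_le_of_le_one_left (by positivity) p2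
  have s3 : (12 / 625 : ℚ) ≤ (2 / 9) ^ n 3 := s345.trans (mul_le_of_le_one_right q3.le r45)
  have s45 : (12 / 625 : ℚ) ≤ (3 / 32) ^ n 4 * (24 / 625) ^ n 5 :=
    s345.trans (mul_le_of_le_one_left (by positivity) p3)
  have s4 : (12 / 625 : ℚ) ≤ (3 / 32) ^ n 4 := s45.trans (mul_le_of_le_one_right q4.le p5)
  have s5 : (12 / 625 : ℚ) ≤ (24 / 625) ^ n 5 := s45.trans (mul_le_of_le_one_left q5.le p4)
  have b2 : n 2 ≤ 5 := by
    by_contra hb
    push Not at hb
    have : (1 / 2 : ℚ) ^ n 2 ≤ (1 / 2) ^ 6 := pow_le_pow_of_le_one (by norm_num) (by norm_num) hb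
    norm_num at this s2
    linarith
  have b3 : n 3 ≤ 2 := by
    by_contra hb
    push Not at hb
    have : (2 / 9 : ℚ) ^ n 3 ≤ (2 / 9) ^ 3 := pow_le_pow_of_le_one (by norm_num) (by norm_num) hb
    norm_num at this s3
    linarith
  have b4 : n 4 ≤ 1 := by
    by_contra hb
    push Not at hb
    have : (3 / 32 : ℚ) ^ n 4 ≤ (3 / 32) ^ 2 :=
      pow_le_pow_of_le_one (by norm_num) (by norm_num) hb
    norm_num at this s4
    linarith
  have b5 : n 5 ≤ 1 := by
    by_contra hb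
    push Not at hb
    have : (24 / 625 : ℚ) ^ n 5 ≤ (24 / 625) ^ 2 :=
      pow_le_pow_of_le_one (by norm_num) (by norm_num) hb
    norm_num at this s5
    linarith
  have key : n 2 = 1 ∧ n 3 = 0 ∧ n 4 = 0 ∧ n 5 = 1 := by
    clear p2 p3 p4 p5 q2 q3 q4 q5 r45 r345 s2 s345 s3 s45 s4 s5 h6 hmap h7
    clear_value n
    generalize n 2 = a at *
    generalize n 3 = b at *
    generalize n 4 = d at *
    generalize n 5 = e at *
    interval_cases a <;> interval_cases b <;> interval_cases d <;> interval_cases e <;>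
      first
        | exact ⟨rfl, rfl, rfl, rfl⟩
        | (exfalso; norm_num at h)
  obtain ⟨k2, k3, k4, k5⟩ := key
  obtain ⟨w2, hw2⟩ := Finset.card_eq_one.1 k2
  obtain ⟨w5, hw5⟩ := Finset.card_eq_one.1 k5
  rw [hn] at k3 k4
  have e3 := Finset.card_eq_zero.1 k3
  have e4 := Finset.card_eq_zero.1 k4
  refine ⟨w2, w5, ?_, ?_, fun w => ?_⟩
  · have : w2 ∈ Finset.univ.filter (fun w => c w = 2) := by rw [hw2]; simp
    exact (Finset.mem_filter.1 this).2
  · have : w5 ∈ Finset.univ.filter (fun w => c w = 5) := by rw [hw5]; simp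
    exact (Finset.mem_filter.1 this).2
  · have h1 := hc w
    have h2 := h5 w
    have h3 : c w ≠ 3 := fun hw => by
      have : w ∈ Finset.univ.filter (fun w => c w = 3) := Finset.mem_filter.2 ⟨Finset.mem_univ _, hw⟩
      rw [e3] at this
      simp at this
    have h4 : c w ≠ 4 := fun hw => by
      have : w ∈ Finset.univ.filter (fun w => c w = 4) := Finset.mem_filter.2 ⟨Finset.mem_univ _, hw⟩
      rw [e4] at this
      simp at this
    have h8 : c w = 1 ∨ c w = 2 ∨ c w = 5 := by omega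
    rcases h8 with h8 | h8 | h8
    · exact Or.inr (Or.inr h8)
    · left
      have : w ∈ Finset.univ.filter (fun w => c w = 2) := Finset.mem_filter.2 ⟨Finset.mem_univ _, h8⟩
      rw [hw2] at this
      exact Finset.mem_singleton.1 this
    · right; left
      have : w ∈ Finset.univ.filter (fun w => c w = 5) := Finset.mem_filter.2 ⟨Finset.mem_univ _, h8⟩
      rw [hw5] at this
      exact Finset.mem_singleton.1 this

variable {G : Type*} [Group G]

/-- the sets which are left transversals of `H` and right transversals of `K` -/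
def DT (H K : Subgroup G) : Set (Set G) :=
  {S | (∀ g : G, ∃! s, s ∈ S ∧ ∃ h ∈ H, s = g * h) ∧ ∀ g : G, ∃! s, s ∈ S ∧ ∃ k ∈ K, s = k * g}

theorem mem_DT (H K : Subgroup G) (S : Set G) : S ∈ DT H K ↔
    (∀ x : G ⧸ H, ∃! s, s ∈ S ∧ (s : G ⧸ H) = x) ∧
      ∀ y : Quotient (QuotientGroup.rightRel K), ∃! s, s ∈ S ∧ rc K s = y := by
  have h1 : ∀ g s : G, (∃ h ∈ H, s = g * h) ↔ (s : G ⧸ H) = (g : G ⧸ H) := by
    intro g s
    rw [eq_comm (a := (s : G ⧸ H)), QuotientGroup.eq]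
    constructor
    · rintro ⟨h, hh, rfl⟩
      simpa using hh
    · intro h
      exact ⟨g⁻¹ * s, h, by group⟩
  have h2 : ∀ g s : G, (∃ k ∈ K, s = k * g) ↔ rc K s = rc K g := by
    intro g s
    rw [eq_comm (a := rc K s), rc_eq]
    constructor
    · rintro ⟨h, hh, rfl⟩
      simpa using hh
    · intro h
      exact ⟨s * g⁻¹, h, by group⟩
  unfold DT
  rw [Set.mem_ofPred_eq]
  simp only [h1, h2]
  constructor
  · rintro ⟨ha, hb⟩
    refine ⟨fun x => ?_, fun y => ?_⟩
    · obtain ⟨g, rfl⟩ := QuotientGroup.mk_surjective x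
      exact ha g
    · obtain ⟨g, rfl⟩ := Quotient.exists_rep y
      exact hb g
  · rintro ⟨ha, hb⟩
    exact ⟨fun g => ha g, fun g => hb (rc K g)⟩

theorem ncard_DT (H K : Subgroup G) : (DT H K).ncard
    = Nat.card {f : G ⧸ H → G //
        (∀ x, (f x : G ⧸ H) = x) ∧ Function.Bijective fun x => rc K (f x)} := by
  rw [← Nat.card_coe_set_eq]
  symm
  have hmem : ∀ f : {f : G ⧸ H → G //
        (∀ x, (f x : G ⧸ H) = x) ∧ Function.Bijective fun x => rc K (f x)},
      Set.range f.1 ∈ DT H K := by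
    rintro ⟨f, h1, h2⟩
    rw [mem_DT]
    refine ⟨fun x => ⟨f x, ⟨⟨x, rfl⟩, h1 x⟩, ?_⟩, fun y => ?_⟩
    · rintro _ ⟨⟨x', rfl⟩, hx'⟩
      have h3 : x' = x := (h1 x').symm.trans hx'
      rw [h3]
    · obtain ⟨x, hx⟩ := h2.2 y
      refine ⟨f x, ⟨⟨x, rfl⟩, hx⟩, ?_⟩
      rintro _ ⟨⟨x', rfl⟩, hx'⟩
      have h3 : x' = x := h2.1 (hx'.trans hx.symm)
      rw [h3]
  refine Nat.card_congr (Equiv.ofBijective (fun f => (⟨Set.range f.1, hmem f⟩ : DT H K)) ⟨?_, ?_⟩)
  · rintro ⟨f, h1, h2⟩ ⟨f', h1', h2'⟩ hff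
    have hr : Set.range f = Set.range f' := congrArg Subtype.val hff
    apply Subtype.ext
    funext x
    change f x = f' x
    have h3 : f x ∈ Set.range f' := hr ▸ ⟨x, rfl⟩
    obtain ⟨x', hx'⟩ := h3
    have h4 : x' = x := by
      rw [← h1' x', hx', h1 x]
    rw [← hx', h4]
  · rintro ⟨S, hS⟩
    obtain ⟨hl, hr⟩ := (mem_DT H K S).1 hS
    choose f hf hu using hl
    have hf1 : ∀ s ∈ S, f (s : G ⧸ H) = s := fun s hs => (hu (s : G ⧸ H) s ⟨hs, rfl⟩).symm
    refine ⟨⟨f, fun x => (hf x).2, ?_, ?_⟩, ?_⟩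
    · intro x x' hxx
      have hxx : rc K (f x) = rc K (f x') := hxx
      obtain ⟨s, -, hs⟩ := hr (rc K (f x))
      have h1 := hs (f x) ⟨(hf x).1, rfl⟩
      have h2 := hs (f x') ⟨(hf x').1, hxx.symm⟩
      rw [← (hf x).2, ← (hf x').2, h1, h2]
    · intro y
      obtain ⟨s, ⟨hs1, hs2⟩, -⟩ := hr y
      refine ⟨(s : G ⧸ H), ?_⟩
      change rc K (f (s : G ⧸ H)) = y
      rw [hf1 s hs1, hs2]
    · apply Subtype.ext
      change Set.range f = S
      ext s
      constructor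
      · rintro ⟨x, rfl⟩
        exact (hf x).1
      · intro hs
        exact ⟨(s : G ⧸ H), hf1 s hs⟩

/-- **The common transversal probability is never `12 / 625`.** -/
theorem ne_value [Finite G] (H K : Subgroup G) (hHK : Nat.card H = Nat.card K) :
    ((DT H K).ncard : ℚ) / (Nat.card H : ℚ) ^ H.index ≠ 12 / 625 := by
  classical
  intro h
  have i1 := Fintype.ofFinite (G ⧸ H)
  have i2 := Fintype.ofFinite (orbitRel.Quotient K (G ⧸ H))
  rw [ncard_DT, sec_value H K hHK] at h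
  have hpos : ∀ w : orbitRel.Quotient K (G ⧸ H), 1 ≤ Nat.card {x // pm H K x = w} := by
    intro w
    obtain ⟨x, hx⟩ : ∃ x, pm H K x = w := Quotient.exists_rep w
    have : Nonempty {x // pm H K x = w} := ⟨⟨x, hx⟩⟩
    exact Nat.card_pos
  obtain ⟨w2, w5, h2, h5, hw⟩ := arith (fun w => Nat.card {x // pm H K x = w}) hpos h
  obtain ⟨x0, rfl⟩ : ∃ x, pm H K x = w2 := Quotient.exists_rep w2
  obtain ⟨z0, rfl⟩ : ∃ x, pm H K x = w5 := Quotient.exists_rep w5
  have horb : ∀ x : G ⧸ H, (orbit K x).ncard = Nat.card {x' // pm H K x' = pm H K x} := by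
    intro x
    rw [← Nat.card_coe_set_eq]
    exact Nat.card_congr (Equiv.subtypeEquivRight fun y => pm_eq.symm)
  refine no_orbits (G := G) (X := G ⧸ H) K ?_ x0 z0 ((horb x0).trans h2) ((horb z0).trans h5) ?_
  · intro x
    rw [← hHK]
    have h1 : Nat.card (orbit G x) * Nat.card (stabilizer G x) = Nat.card G := by
      rw [← Nat.card_prod]
      exact Nat.card_congr (orbitProdStabilizerEquivGroup G x)
    rw [MulAction.orbit_eq_univ, Nat.card_univ] at h1
    have h3 : Nat.card (G ⧸ H) * Nat.card H = Nat.card G :=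
      (Subgroup.card_eq_card_quotient_mul_card_subgroup H).symm
    rw [← h3] at h1
    exact Nat.eq_of_mul_eq_mul_left Nat.card_pos h1
  · intro x
    rcases hw (pm H K x) with h1 | h1 | h1
    · exact Or.inl (pm_eq.1 h1)
    · exact Or.inr (Or.inl (pm_eq.1 h1))
    · right; right
      intro k hk
      have h3 : (orbit K x).ncard = 1 := (horb x).trans h1
      obtain ⟨a, ha⟩ := Set.ncard_eq_one.1 h3
      have h4 : x ∈ orbit K x := mem_orbit_self x
      have h6 : k • x ∈ orbit K x := ⟨⟨k, hk⟩, rfl⟩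
      rw [ha] at h4 h6
      rw [Set.mem_singleton_iff.1 h6, Set.mem_singleton_iff.1 h4]

/-- the permanent of a block diagonal averaging matrix -/
theorem permanent_block {s : ℕ} (t : Fin s → ℕ) :
    Matrix.permanent (fun a b : (Σ i, Fin (t i)) => if a.1 = b.1 then (1 : ℚ) / t a.1 else 0)
      = ∏ i, ff (t i) := by
  classical
  unfold Matrix.permanent
  have h1 : ∀ σ : Equiv.Perm (Σ i, Fin (t i)),
      ∏ a, (if (σ a).1 = a.1 then (1 : ℚ) / t (σ a).1 else 0)
        = if (∀ a, (σ a).1 = a.1) then ∏ i, ((1 : ℚ) / t i) ^ (t i) else 0 := by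
    intro σ
    split_ifs with h
    · rw [Finset.prod_congr rfl fun a _ => by rw [if_pos (h a), h a]]
      rw [Fintype.prod_sigma]
      refine Finset.prod_congr rfl fun i _ => ?_
      change ∏ _y : Fin (t i), (1 : ℚ) / t i = _
      rw [Finset.prod_const, Finset.card_univ, Fintype.card_fin]
    · push Not at h
      obtain ⟨a, ha⟩ := h
      exact Finset.prod_eq_zero (Finset.mem_univ a) (if_neg ha)
  rw [Finset.sum_congr rfl fun σ _ => h1 σ]
  rw [← Finset.sum_filter, Finset.sum_const]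
  have h2 := card_compatible (X := Σ i, Fin (t i)) (Y := Σ i, Fin (t i)) (W := Fin s)
    Sigma.fst Sigma.fst fun w => rfl
  rw [Nat.card_eq_fintype_card, Fintype.card_subtype] at h2
  rw [h2, nsmul_eq_mul]
  push_cast
  rw [← Finset.prod_mul_distrib]
  refine Finset.prod_congr rfl fun i _ => ?_
  have h3 : Nat.card {x : (Σ i, Fin (t i)) // x.1 = i} = t i := by
    rw [Nat.card_congr (Equiv.sigmaSubtype i), Nat.card_fin]
  rw [h3]
  unfold ff
  rw [one_div, inv_pow, div_eq_mul_inv]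

end Pool.Agent.Q320.TP
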